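import Pool.Agent.H52.V.S8.H38R2.CG.NF
import Pool.Agent.H52.V.S8.H38R2.CG.N5
import Pool.Agent.H52.V.S8.H38R2.CG.N5a

/-!
# The covering argument: if no product of two ideals of the family is close to a given point of
the Arakelov class group, then the near collision sum is at least twice the minimum.
-/

set_option autoImplicit false

namespace Pool.Agent.H951R5.AR

open Finset Filter NumberField Pool.Agent.H38R2.CG
open scoped Classical

variable {K : Type} [Field K] [NumberField K] {D : ℕ}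

theorem absNorm_span_nat' (h2 : Module.finrank ℚ K = 2) (p : ℕ) :
    Ideal.absNorm (Ideal.span {(p : 𝓞 K)}) = p ^ 2 := by
  rw [Ideal.absNorm_span_singleton]
  have h1 : Algebra.norm ℤ ((p : 𝓞 K)) = (p : ℤ) ^ Module.finrank ℤ (𝓞 K) := by
    have h2 := Algebra.norm_algebraMap (S := 𝓞 K) (p : ℤ)
    simpa using h2
  rw [h1, NumberField.RingOfIntegers.rank, h2]
  simp [Int.natAbs_pow]

theorem exists_conj (h2 : Module.finrank ℚ K = 2) (A : Ideal (𝓞 K)) (hA : A ≠ ⊥) :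
    ∃ A' : Ideal (𝓞 K), A * A' = Ideal.span {((Ideal.absNorm A : ℕ) : 𝓞 K)} ∧
      Ideal.absNorm A' = Ideal.absNorm A := by
  have hmem := Ideal.absNorm_mem A
  have hdvd : A ∣ Ideal.span {((Ideal.absNorm A : ℕ) : 𝓞 K)} := by
    rw [Ideal.dvd_span_singleton]; exact hmem
  obtain ⟨A', hA'⟩ := hdvd
  refine ⟨A', hA'.symm, ?_⟩
  have h := congrArg Ideal.absNorm hA'
  rw [map_mul, absNorm_span_nat' h2, pow_two] at h
  have h0 : Ideal.absNorm A ≠ 0 := by
    rw [Ne, Ideal.absNorm_eq_zero_iff]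
    exact hA
  exact (Nat.eq_of_mul_eq_mul_left (Nat.pos_of_ne_zero h0) h).symm

/-- the conjugate ideal -/
noncomputable def cj (A : Ideal (𝓞 K)) : Ideal (𝓞 K) :=
  if h : ∃ A' : Ideal (𝓞 K), A * A' = Ideal.span {((Ideal.absNorm A : ℕ) : 𝓞 K)} ∧
      Ideal.absNorm A' = Ideal.absNorm A then h.choose else ⊥

theorem cj_spec (h2 : Module.finrank ℚ K = 2) (A : Ideal (𝓞 K)) (hA : A ≠ ⊥) :
    A * cj A = Ideal.span {((Ideal.absNorm A : ℕ) : 𝓞 K)} ∧
      Ideal.absNorm (cj A) = Ideal.absNorm A := by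
  have h := exists_conj h2 A hA
  unfold cj
  rw [dif_pos h]
  exact h.choose_spec

theorem cj_ne (h2 : Module.finrank ℚ K = 2) (A : Ideal (𝓞 K)) (hA : A ≠ ⊥) : cj A ≠ ⊥ := by
  have h := (cj_spec h2 A hA).2
  intro h0
  rw [h0, Ideal.absNorm_bot] at h
  exact hA (Ideal.absNorm_eq_zero_iff.1 h.symm)

theorem cj_inj (h2 : Module.finrank ℚ K = 2) {A B : Ideal (𝓞 K)} (hA : A ≠ ⊥)
    (hB : B ≠ ⊥) (hN : Ideal.absNorm A = Ideal.absNorm B) (h : cj A = cj B) : A = B := by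
  have h1 := (cj_spec h2 A hA).1
  have h3 := (cj_spec h2 B hB).1
  rw [← hN, ← h, ← h1] at h3
  exact (mul_right_cancel₀ (cj_ne h2 A hA) h3).symm

theorem XAB_mul (e : Emb K D) {I A B : Ideal (𝓞 K)} (hI : I ≠ ⊥) :
    XAB e (I * A) (I * B) = XAB e A B := by
  have hI' : (I : FractionalIdeal (nonZeroDivisors (𝓞 K)) K) ≠ 0 :=
    FractionalIdeal.coeIdeal_ne_zero.2 hI
  ext x
  unfold XAB
  simp only [Set.mem_ofPred_eq, FractionalIdeal.coeIdeal_mul]
  constructor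
  · rintro ⟨h1, h2, h3⟩
    refine ⟨h1, h2, ?_⟩
    have h4 : (I : FractionalIdeal (nonZeroDivisors (𝓞 K)) K) *
        (FractionalIdeal.spanSingleton (nonZeroDivisors (𝓞 K)) x *
          (A : FractionalIdeal (nonZeroDivisors (𝓞 K)) K)) =
        (I : FractionalIdeal (nonZeroDivisors (𝓞 K)) K) * B := by
      rw [← h3]
      ring
    exact mul_left_cancel₀ hI' h4
  · rintro ⟨h1, h2, h3⟩
    refine ⟨h1, h2, ?_⟩
    rw [← h3]
    ring

theorem KAB_mul (e : Emb K D) {I A B : Ideal (𝓞 K)} (hI : I ≠ ⊥) :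
    KAB e (I * A) (I * B) = KAB e A B := by
  unfold KAB
  rw [XAB_mul e hI]

theorem phi_zero {t : ℝ} (h : 1 ≤ |t|) : phi t = 0 := by
  unfold phi
  exact max_eq_left (by linarith)

theorem KAB_zero (e : Emb K D) {A B : Ideal (𝓞 K)}
    (h : ∀ x ∈ XAB e A B, 1 ≤ |Real.log (e.σ x / e.τ x)|) : KAB e A B = 0 := by
  unfold KAB
  exact finsum_mem_eq_zero_of_forall_eq_zero fun x hx => phi_zero (h x hx)

/-- cancelling the norm -/
theorem xcancel (h2 : Module.finrank ℚ K = 2) (e : Emb K D) {I A B : Ideal (𝓞 K)} (hB : B ≠ ⊥)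
    {x : K} (hx : x ∈ XAB e A (I * cj B)) :
    ∃ y : K, 0 < e.σ y ∧ 0 < e.τ y ∧ FractionalIdeal.spanSingleton (nonZeroDivisors (𝓞 K)) y *
      ((A * B : Ideal (𝓞 K)) : FractionalIdeal (nonZeroDivisors (𝓞 K)) K) = I ∧
      Real.log (e.σ y / e.τ y) = Real.log (e.σ x / e.τ x) := by
  obtain ⟨h1, h3, h4⟩ := hx
  have hB0 : Ideal.absNorm B ≠ 0 := by
    rw [Ne, Ideal.absNorm_eq_zero_iff]
    exact hB
  set n : ℕ := Ideal.absNorm B with hn
  have hnpos : (0 : ℝ) < n := by exact_mod_cast Nat.pos_of_ne_zero hB0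
  have hnK : (n : K) ≠ 0 := by exact_mod_cast hB0
  refine ⟨x / n, ?_, ?_, ?_, ?_⟩
  · rw [map_div₀, map_natCast]; exact div_pos h1 hnpos
  · rw [map_div₀, map_natCast]; exact div_pos h3 hnpos
  · have h5 : FractionalIdeal.spanSingleton (nonZeroDivisors (𝓞 K)) (x / (n : K)) =
        FractionalIdeal.spanSingleton (nonZeroDivisors (𝓞 K)) ((n : K)⁻¹) *
        FractionalIdeal.spanSingleton (nonZeroDivisors (𝓞 K)) x := by
      rw [FractionalIdeal.spanSingleton_mul_spanSingleton, div_eq_mul_inv, mul_comm]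
    have h6 : ((cj B : Ideal (𝓞 K)) : FractionalIdeal (nonZeroDivisors (𝓞 K)) K) * B =
        FractionalIdeal.spanSingleton (nonZeroDivisors (𝓞 K)) (n : K) := by
      rw [← FractionalIdeal.coeIdeal_mul, mul_comm, (cj_spec h2 B hB).1,
        FractionalIdeal.coeIdeal_span_singleton]
      congr 1
    rw [FractionalIdeal.coeIdeal_mul, h5]
    calc FractionalIdeal.spanSingleton (nonZeroDivisors (𝓞 K)) ((n : K)⁻¹) *
        FractionalIdeal.spanSingleton (nonZeroDivisors (𝓞 K)) x *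
        ((A : FractionalIdeal (nonZeroDivisors (𝓞 K)) K) * B)
        = FractionalIdeal.spanSingleton (nonZeroDivisors (𝓞 K)) ((n : K)⁻¹) *
        (FractionalIdeal.spanSingleton (nonZeroDivisors (𝓞 K)) x *
        (A : FractionalIdeal (nonZeroDivisors (𝓞 K)) K)) * B := by ring
      _ = FractionalIdeal.spanSingleton (nonZeroDivisors (𝓞 K)) ((n : K)⁻¹) *
        (I : FractionalIdeal (nonZeroDivisors (𝓞 K)) K) * ((cj B : Ideal (𝓞 K)) * B) := by
          rw [h4, FractionalIdeal.coeIdeal_mul]; ring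
      _ = (FractionalIdeal.spanSingleton (nonZeroDivisors (𝓞 K)) ((n : K)⁻¹) *
        FractionalIdeal.spanSingleton (nonZeroDivisors (𝓞 K)) (n : K)) * I := by
          rw [h6]; ring
      _ = I := by
          rw [FractionalIdeal.spanSingleton_mul_spanSingleton, inv_mul_cancel₀ hnK,
            FractionalIdeal.spanSingleton_one, one_mul]
  · rw [map_div₀, map_div₀, map_natCast, map_natCast]
    congr 1
    field_simp

/-- symmetry -/
theorem XAB_inv (e : Emb K D) {A B : Ideal (𝓞 K)} {x : K} (hx : x ∈ XAB e A B) :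
    x⁻¹ ∈ XAB e B A ∧ |Real.log (e.σ x⁻¹ / e.τ x⁻¹)| = |Real.log (e.σ x / e.τ x)| := by
  obtain ⟨h1, h3, h4⟩ := hx
  have hx0 : x ≠ 0 := N5ah.ne_zero_of_pos e h1
  refine ⟨⟨?_, ?_, ?_⟩, ?_⟩
  · rw [map_inv₀]; exact inv_pos.2 h1
  · rw [map_inv₀]; exact inv_pos.2 h3
  · rw [← h4, ← mul_assoc, FractionalIdeal.spanSingleton_mul_spanSingleton, inv_mul_cancel₀ hx0,
      FractionalIdeal.spanSingleton_one, one_mul]
  · rw [map_inv₀, map_inv₀]
    have h5 : (e.σ x)⁻¹ / (e.τ x)⁻¹ = (e.σ x / e.τ x)⁻¹ := by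
      field_simp
    rw [h5, Real.log_inv, abs_neg]

open NFh in
/-- If no product of two ideals of the family is within distance 1 of the ideal `I`, the near
collision sum is at least twice as large as it has to be. -/
theorem cover_core (hN1 : P_N1) (hN3 : P_N3) (hN5 : P_N5) (hN6 : P_N6) (hD : IsFund D)
    (h2 : Module.finrank ℚ K = 2) (hK : NumberField.discr K = (D : ℤ)) (e : Emb K D)
    (S : Finset (Finset ℕ)) (f : Finset ℕ → ℝ)
    (hf : ∀ s ∈ S, 0 ≤ f s ∧ ∀ p ∈ s, p.Prime ∧ p ≠ 2) (I : Ideal (𝓞 K)) (hI : I ≠ ⊥)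
    (hno : ∀ s ∈ S, ∀ t ∈ S, ∀ A B : Ideal (𝓞 K), Ideal.absNorm A = prodS s →
      Ideal.absNorm B = prodS t → ∀ x : K, 0 < e.σ x → 0 < e.τ x →
      FractionalIdeal.spanSingleton (nonZeroDivisors (𝓞 K)) x *
        ((A * B : Ideal (𝓞 K)) : FractionalIdeal (nonZeroDivisors (𝓞 K)) K) = I →
      1 ≤ |Real.log (e.σ x / e.τ x)|) :
    2 * (MD D S f) ^ 2 ≤ 2 * √(D : ℝ) * Lone D * SD D S f := by
  have hL : 0 ≤ Lone D := (hN3 K D hD h2 hK).1
  let V : Finset ℕ → Finset (Ideal (𝓞 K)) := fun s => U K (prodS s)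
  let ι : Type := Σ s : {s // s ∈ S}, {A // A ∈ V s}
  have hne0 : ∀ s ∈ S, ∀ A ∈ V s, A ≠ ⊥ := by
    intro s hs A hA h0
    have h1 := mem_U.mp hA
    rw [h0, Ideal.absNorm_bot] at h1
    exact (prodS_pos fun p hp => ((hf s hs).2 p hp).1).ne h1
  have hne : ∀ i : ι, (i.2 : Ideal (𝓞 K)) ≠ ⊥ := fun i => hne0 i.1 i.1.2 i.2 i.2.2
  have hIc : ∀ i : ι, I * cj (i.2 : Ideal (𝓞 K)) ≠ ⊥ := fun i =>
    mul_ne_zero hI (cj_ne h2 _ (hne i))
  let F : ι ⊕ ι → nonZeroDivisors (Ideal (𝓞 K)) := Sum.elim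
    (fun i => ⟨i.2, mem_nonZeroDivisors_of_ne_zero (hne i)⟩)
    (fun i => ⟨I * cj (i.2 : Ideal (𝓞 K)), mem_nonZeroDivisors_of_ne_zero (hIc i)⟩)
  let w : ι → ℝ := fun i => f i.1
  have hw : ∀ i, 0 ≤ w i := fun i => (hf i.1 i.1.2).1
  let w2 : ι ⊕ ι → ℝ := Sum.elim w w
  have hw2 : ∀ i, 0 ≤ w2 i := by
    rintro (i | i)
    · exact hw i
    · exact hw i
  have hsum : ∑ i, w i = MD D S f := by
    have h := sum_sig S V (fun s _ => f s)
    change ∑ i : (Σ s : {s // s ∈ S}, {A // A ∈ V s}), f i.1 = MD D S f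
    rw [h]
    unfold MD
    refine Finset.sum_congr rfl fun s hs => ?_
    rw [Finset.sum_const, nsmul_eq_mul, mul_comm]
    congr 1
    have h1 := hN1 K D hD h2 hK s (hf s hs).2
    have h3 : ((V s).card : ℤ) = ∏ p ∈ s, (1 + chi D p) := by
      rw [← h1, ← card_U]
    have h4 : (((V s).card : ℤ) : ℝ) = ((∏ p ∈ s, (1 + chi D p) : ℤ) : ℝ) := by rw [h3]
    push_cast at h4
    exact h4
  -- the two diagonal blocks
  have hgen : ∀ g : Ideal (𝓞 K) → Ideal (𝓞 K),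
      (∀ s ∈ S, Set.InjOn g (V s : Set (Ideal (𝓞 K)))) →
      (∀ s ∈ S, ∀ A ∈ V s, Ideal.absNorm (g A) = prodS s) →
      ∑ i : ι, ∑ j : ι, w i * w j * KAB e (g (i.2 : Ideal (𝓞 K))) (g (j.2 : Ideal (𝓞 K))) ≤
        SD D S f := by
    intro g hg hgn
    have h : ∑ i : ι, ∑ j : ι, w i * w j *
          KAB e (g (i.2 : Ideal (𝓞 K))) (g (j.2 : Ideal (𝓞 K))) =
        ∑ s ∈ S, ∑ X ∈ V s, ∑ t ∈ S, ∑ Y ∈ V t, f s * f t * KAB e (g X) (g Y) := by
      rw [← sum_sig S V (fun s X => ∑ t ∈ S, ∑ Y ∈ V t, f s * f t * KAB e (g X) (g Y))]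
      refine Finset.sum_congr rfl fun i _ => ?_
      exact sum_sig S V (fun t Y => f i.1 * f t * KAB e (g (i.2 : Ideal (𝓞 K))) (g Y))
    rw [h]
    unfold SD
    refine Finset.sum_le_sum fun s hs => ?_
    rw [Finset.sum_comm]
    refine Finset.sum_le_sum fun t ht => ?_
    have h3 : ∑ X ∈ V s, ∑ Y ∈ V t, f s * f t * KAB e (g X) (g Y) =
        f s * f t * ∑ X ∈ (V s).image g, ∑ Y ∈ (V t).image g, KAB e X Y := by
      rw [Finset.sum_image (hg s hs), Finset.mul_sum]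
      refine Finset.sum_congr rfl fun X _ => ?_
      rw [Finset.sum_image (hg t ht), Finset.mul_sum]
    rw [h3]
    have h4 := hN6 K D hD h2 hK e s t (hf s hs).2 (hf t ht).2 ((V s).image g) ((V t).image g)
      (fun X hX => by
        obtain ⟨A, hA, rfl⟩ := Finset.mem_image.1 hX
        exact hgn s hs A hA)
      (fun Y hY => by
        obtain ⟨A, hA, rfl⟩ := Finset.mem_image.1 hY
        exact hgn t ht A hA)
    have h5 : 0 ≤ f s * f t := mul_nonneg (hf s hs).1 (hf t ht).1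
    calc f s * f t * ∑ X ∈ (V s).image g, ∑ Y ∈ (V t).image g, KAB e X Y
        ≤ f s * f t * (2 ^ ((s ∩ t).card) * Rsum D (prodS s * prodS t)) :=
          mul_le_mul_of_nonneg_left h4 h5
      _ = _ := by ring
  have hll : ∑ i : ι, ∑ j : ι, w i * w j * KAB e (i.2 : Ideal (𝓞 K)) (j.2 : Ideal (𝓞 K)) ≤
      SD D S f :=
    hgen (fun A => A) (fun s _ => Set.injOn_id _) (fun s _ A hA => mem_U.mp hA)
  have hrr : ∑ i : ι, ∑ j : ι, w i * w j *
      KAB e (cj (i.2 : Ideal (𝓞 K))) (cj (j.2 : Ideal (𝓞 K))) ≤ SD D S f := by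
    refine hgen cj ?_ ?_
    · intro s hs A hA B hB hAB
      rw [Finset.mem_coe] at hA hB
      exact cj_inj h2 (hne0 s hs A hA) (hne0 s hs B hB)
        ((mem_U.mp hA).trans (mem_U.mp hB).symm) hAB
    · intro s hs A hA
      rw [(cj_spec h2 A (hne0 s hs A hA)).2]
      exact mem_U.mp hA
  -- the off-diagonal blocks
  have hlr : ∀ i j : ι, KAB e (i.2 : Ideal (𝓞 K)) (I * cj (j.2 : Ideal (𝓞 K))) = 0 := by
    intro i j
    refine KAB_zero e fun x hx => ?_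
    obtain ⟨y, h1, h3, h4, h5⟩ := xcancel h2 e (hne j) hx
    rw [← h5]
    exact hno i.1 i.1.2 j.1 j.1.2 i.2 j.2 (mem_U.mp i.2.2) (mem_U.mp j.2.2) y h1 h3 h4
  have hrl : ∀ i j : ι, KAB e (I * cj (i.2 : Ideal (𝓞 K))) (j.2 : Ideal (𝓞 K)) = 0 := by
    intro i j
    refine KAB_zero e fun x hx => ?_
    obtain ⟨hx', hlog⟩ := XAB_inv e hx
    obtain ⟨y, h1, h3, h4, h5⟩ := xcancel h2 e (hne i) hx'
    rw [← hlog, ← h5]
    exact hno j.1 j.1.2 i.1 i.1.2 j.2 i.2 (mem_U.mp j.2.2) (mem_U.mp i.2.2) y h1 h3 h4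
  have hmain := (hN5 K D hD h2 hK e (ι ⊕ ι) F w2 hw2).1
  have hA : ∑ i, w2 i = 2 * MD D S f := by
    rw [Fintype.sum_sum_type]
    simp only [w2, Sum.elim_inl, Sum.elim_inr]
    rw [hsum]
    ring
  have hB : ∑ i, ∑ j, w2 i * w2 j * KAB e (F i : Ideal (𝓞 K)) (F j : Ideal (𝓞 K)) ≤
      2 * SD D S f := by
    rw [Fintype.sum_sum_type]
    simp only [Fintype.sum_sum_type, w2, F, Sum.elim_inl, Sum.elim_inr, hlr, hrl, mul_zero,
      Finset.sum_const_zero, add_zero, zero_add, KAB_mul e hI]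
    linarith
  rw [hA] at hmain
  have hc : 0 ≤ 2 * √(D : ℝ) * Lone D := by positivity
  have h7 := hmain.trans (mul_le_mul_of_nonneg_left hB hc)
  nlinarith

end Pool.Agent.H951R5.AR
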