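import Mathlib

/-!
# Small primes in the Arakelov class group of a real quadratic field: definitions
-/

set_option autoImplicit false

namespace Pool.Agent.H951R5.AR

open NumberField

/-- `I` is a product of at most `n` prime ideals of norm at most `B`, repetitions allowed. -/
def SmallProd (K : Type) [Field K] [NumberField K] (B n : ℝ) (I : Ideal (𝓞 K)) : Prop :=
  ∃ L : Multiset (Ideal (𝓞 K)),
    (∀ P ∈ L, P.IsPrime ∧ P ≠ ⊥ ∧ ((Ideal.absNorm P : ℕ) : ℝ) ≤ B) ∧
    (L.card : ℝ) ≤ n ∧ L.prod = I

/-- `x` is a totally positive element of the real quadratic field `K` with embeddings `σ`, `τ`. -/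
def TotPos {K : Type} [Field K] (σ τ : K →+* ℝ) (x : K) : Prop := 0 < σ x ∧ 0 < τ x

/-- The covering property: every nonzero ideal `I` is `x A`, with `A` a product of at most `n`
prime ideals of norm at most `B`, with `x` totally positive and with log(σx/τx) within 2 of any
given real number `t`. -/
def Covers (K : Type) [Field K] [NumberField K] (σ τ : K →+* ℝ) (B n : ℝ) : Prop :=
  ∀ I : Ideal (𝓞 K), I ≠ ⊥ → ∀ t : ℝ, ∃ (A : Ideal (𝓞 K)) (x : K), SmallProd K B n A ∧
    TotPos σ τ x ∧
    FractionalIdeal.spanSingleton (nonZeroDivisors (𝓞 K)) x *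
      (A : FractionalIdeal (nonZeroDivisors (𝓞 K)) K) = I ∧
    |Real.log (σ x / τ x) - t| ≤ 2

/-- The small elements: the nonzero `x` in `K` for which the fractional ideal (x) is a quotient of
two products of at most `n` prime ideals of norm at most `B`, and
the absolute value of log |σx/τx| is at most 5. -/
def Gen (K : Type) [Field K] [NumberField K] (σ τ : K →+* ℝ) (B n : ℝ) : Set Kˣ :=
  {x : Kˣ | (∃ A A' : Ideal (𝓞 K), SmallProd K B n A ∧ SmallProd K B n A' ∧
    FractionalIdeal.spanSingleton (nonZeroDivisors (𝓞 K)) (x : K) *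
      (A' : FractionalIdeal (nonZeroDivisors (𝓞 K)) K) = A) ∧
    abs (Real.log (abs (σ (x : K) / τ (x : K)))) ≤ 5}

/-- The `B`-units: the nonzero `u` in `K` for which the fractional ideal (u) is a quotient of two
products of prime ideals of norm at most `B`. -/
def SUnit (K : Type) [Field K] [NumberField K] (B : ℝ) : Set Kˣ :=
  {u : Kˣ | ∃ (m : ℝ) (A A' : Ideal (𝓞 K)), SmallProd K B m A ∧ SmallProd K B m A' ∧
    FractionalIdeal.spanSingleton (nonZeroDivisors (𝓞 K)) (u : K) *
      (A' : FractionalIdeal (nonZeroDivisors (𝓞 K)) K) = A}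

/-- The property of the final theorem, for the field of the square root of `d`: with
B = (log d)^a and n = log d / log log d,
(i) the covering property;
(ii) every B-unit is a product of powers of small elements, and every totally positive B-unit is
a product of powers of totally positive small elements;
(iii) unique factorisation holds in the ring of integers if and only if every prime ideal of norm
at most B is generated by a product of powers of small elements. -/
def GoodAR (a : ℝ) (d : ℕ) : Prop :=
  ∀ (K : Type) [Field K] [NumberField K], Module.finrank ℚ K = 2 →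
    (∃ x : K, x ^ 2 = (d : K)) → ∀ σ τ : K →+* ℝ, σ ≠ τ →
    Covers K σ τ ((Real.log d) ^ a) (Real.log d / Real.log (Real.log d)) ∧
    (∀ u ∈ SUnit K ((Real.log d) ^ a),
      u ∈ Subgroup.closure
        (Gen K σ τ ((Real.log d) ^ a) (1 + Real.log d / Real.log (Real.log d))) ∧
      (TotPos σ τ (u : K) → u ∈ Subgroup.closure
        {x : Kˣ | x ∈ Gen K σ τ ((Real.log d) ^ a) (1 + Real.log d / Real.log (Real.log d)) ∧
          TotPos σ τ (x : K)})) ∧
    (UniqueFactorizationMonoid (𝓞 K) ↔
      ∀ P : Ideal (𝓞 K), P.IsPrime → P ≠ ⊥ → ((Ideal.absNorm P : ℕ) : ℝ) ≤ (Real.log d) ^ a →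
        ∃ x ∈ Subgroup.closure
          (Gen K σ τ ((Real.log d) ^ a) (1 + Real.log d / Real.log (Real.log d))),
          FractionalIdeal.spanSingleton (nonZeroDivisors (𝓞 K)) ((x : Kˣ) : K) =
            (P : FractionalIdeal (nonZeroDivisors (𝓞 K)) K))

/-- 100% of the squarefree integers. -/
def FinalAR : Prop := ∀ a : ℝ, 2 < a →
  Filter.Tendsto (fun X : ℕ =>
    (Nat.card {d : ℕ // 2 ≤ d ∧ d ≤ X ∧ Squarefree d ∧ ¬ GoodAR a d} : ℝ) / X)
    Filter.atTop (nhds 0)

/-- 100% of the primes. -/
def FinalARP : Prop := ∀ a : ℝ, 2 < a →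
  Filter.Tendsto (fun X : ℕ =>
    (Nat.card {p : ℕ // p ≤ X ∧ p.Prime ∧ ¬ GoodAR a p} : ℝ) /
      (Nat.card {p : ℕ // p ≤ X ∧ p.Prime} : ℝ))
    Filter.atTop (nhds 0)

end Pool.Agent.H951R5.AR
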