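import Pool.Agent.H52.V.S8.H951R5.AR.Defs
import Pool.Agent.H52.V.S8.H951R5.AR.Cov

/-!
# All points of the Arakelov class group are covered
-/

set_option autoImplicit false

namespace Pool.Agent.H951R5.AR

open Finset Filter NumberField Pool.Agent.H38R2.CG
open scoped Classical

variable {K : Type} [Field K] [NumberField K] {D : ℕ}

/-- totally positive integers with prescribed logarithm, up to 1 -/
theorem exists_dir (hD : 1 < D) (e : Emb K D) (t : ℝ) :
    ∃ y : 𝓞 K, 0 < e.σ (y : K) ∧ 0 < e.τ (y : K) ∧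
      |Real.log (e.σ (y : K) / e.τ (y : K)) - t| ≤ 1 := by
  have hDr : (1 : ℝ) < D := by exact_mod_cast hD
  set r : ℝ := √(D : ℝ) with hr
  have hr0 : 0 < r := Real.sqrt_pos.2 (by linarith)
  have hrD : r ≤ D := by
    rw [hr, Real.sqrt_le_left (by linarith)]
    nlinarith
  obtain ⟨y0, h1, h2⟩ := e.int2 (2 * (3 * D : ℕ)) 2 ⟨(3 * D : ℕ) - D, by push_cast; ring⟩
  obtain ⟨y1, h3, h4⟩ := e.int2 (2 * (3 * D : ℕ)) (-2) ⟨(3 * D : ℕ) + D, by push_cast; ring⟩
  set n : ℝ := 3 * D with hn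
  have e1 : e.σ (y0 : K) = n + r := by rw [h1, ← hr]; push_cast; ring
  have e2 : e.τ (y0 : K) = n - r := by rw [h2, ← hr]; push_cast; ring
  have e3 : e.σ (y1 : K) = n - r := by rw [h3, ← hr]; push_cast; ring
  have e4 : e.τ (y1 : K) = n + r := by rw [h4, ← hr]; push_cast; ring
  have hn1 : 0 < n - r := by linarith
  have hn2 : 0 < n + r := by linarith
  set δ : ℝ := Real.log ((n + r) / (n - r)) with hδ
  have hδ0 : 0 < δ := by
    apply Real.log_pos
    rw [one_lt_div hn1]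
    linarith
  have hδ1 : δ ≤ 1 := by
    have h5 : (n + r) / (n - r) ≤ 2 := by
      rw [div_le_iff₀ hn1]
      linarith
    have h6 : δ ≤ Real.log 2 := Real.log_le_log (by positivity) h5
    have h7 : Real.log 2 < 1 := by
      have := Real.log_two_lt_d9
      linarith
    linarith
  set m : ℕ := ⌊|t| / δ⌋₊ with hm
  have hm1 : (m : ℝ) * δ ≤ |t| := by
    have := Nat.floor_le (show 0 ≤ |t| / δ by positivity)
    rwa [le_div_iff₀ hδ0] at this
  have hm2 : |t| < (m + 1) * δ := by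
    have := Nat.lt_floor_add_one (|t| / δ)
    rwa [div_lt_iff₀ hδ0] at this
  have key : ∀ y : 𝓞 K, 0 < e.σ (y : K) → 0 < e.τ (y : K) →
      0 < e.σ ((y ^ m : 𝓞 K) : K) ∧ 0 < e.τ ((y ^ m : 𝓞 K) : K) ∧
      Real.log (e.σ ((y ^ m : 𝓞 K) : K) / e.τ ((y ^ m : 𝓞 K) : K)) =
        m * Real.log (e.σ (y : K) / e.τ (y : K)) := by
    intro y ha hb
    have hc : ((y ^ m : 𝓞 K) : K) = (y : K) ^ m := by push_cast; rfl
    rw [hc, map_pow, map_pow]
    refine ⟨pow_pos ha m, pow_pos hb m, ?_⟩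
    rw [← div_pow, Real.log_pow]
  rcases le_total 0 t with ht | ht
  · obtain ⟨k1, k2, k3⟩ := key y0 (by rw [e1]; exact hn2) (by rw [e2]; exact hn1)
    refine ⟨y0 ^ m, k1, k2, ?_⟩
    rw [k3, e1, e2, ← hδ, abs_le]
    rw [abs_of_nonneg ht] at hm1 hm2
    constructor <;> nlinarith
  · obtain ⟨k1, k2, k3⟩ := key y1 (by rw [e3]; exact hn1) (by rw [e4]; exact hn2)
    refine ⟨y1 ^ m, k1, k2, ?_⟩
    have e5 : Real.log ((n - r) / (n + r)) = -δ := by
      rw [hδ, ← Real.log_inv, inv_div]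
    rw [k3, e3, e4, e5, abs_le]
    rw [abs_of_nonpos ht] at hm1 hm2
    constructor <;> nlinarith

theorem cover_all (hN1 : P_N1) (hN3 : P_N3) (hN5 : P_N5) (hN6 : P_N6) (hD : IsFund D)
    (h2 : Module.finrank ℚ K = 2) (hK : NumberField.discr K = (D : ℤ)) (e : Emb K D)
    (S : Finset (Finset ℕ)) (f : Finset ℕ → ℝ)
    (hf : ∀ s ∈ S, 0 ≤ f s ∧ ∀ p ∈ s, p.Prime ∧ p ≠ 2)
    (hlt : 2 * √(D : ℝ) * Lone D * SD D S f < 2 * (MD D S f) ^ 2)
    (I : Ideal (𝓞 K)) (hI : I ≠ ⊥) (t : ℝ) :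
    ∃ s ∈ S, ∃ s' ∈ S, ∃ A B : Ideal (𝓞 K), Ideal.absNorm A = prodS s ∧
      Ideal.absNorm B = prodS s' ∧ ∃ x : K, 0 < e.σ x ∧ 0 < e.τ x ∧
      FractionalIdeal.spanSingleton (nonZeroDivisors (𝓞 K)) x *
        ((A * B : Ideal (𝓞 K)) : FractionalIdeal (nonZeroDivisors (𝓞 K)) K) = I ∧
      |Real.log (e.σ x / e.τ x) - t| ≤ 2 := by
  obtain ⟨y, hy1, hy2, hy3⟩ := exists_dir hD.1 e (-t)
  have hy0 : (y : K) ≠ 0 := N5ah.ne_zero_of_pos e hy1
  have hy0' : y ≠ 0 := fun h => hy0 (by rw [h]; rfl)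
  have hI' : Ideal.span {y} * I ≠ ⊥ :=
    mul_ne_zero (by rwa [Ne, Ideal.zero_eq_bot, Ideal.span_singleton_eq_bot]) hI
  by_contra hcon
  push Not at hcon
  refine absurd (cover_core hN1 hN3 hN5 hN6 hD h2 hK e S f hf (Ideal.span {y} * I) hI' ?_)
    (not_le.2 hlt)
  intro s hs s' hs' A B hA hB x hx1 hx2 hx3
  by_contra hlog
  push Not at hlog
  have hdiv := N5ah.log_div e hx1 hx2 hy1 hy2
  have h5 := hcon s hs s' hs' A B hA hB (x / y) (by rw [map_div₀]; exact div_pos hx1 hy1)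
    (by rw [map_div₀]; exact div_pos hx2 hy2) ?_
  · rw [hdiv] at h5
    rw [abs_le] at hy3
    rw [abs_lt] at hlog
    have h6 : |Real.log (e.σ x / e.τ x) - Real.log (e.σ (y : K) / e.τ (y : K)) - t| ≤ 2 := by
      rw [abs_le]
      constructor <;> linarith [hy3.1, hy3.2, hlog.1, hlog.2]
    linarith
  · have h6 : FractionalIdeal.spanSingleton (nonZeroDivisors (𝓞 K)) (x / (y : K)) =
        FractionalIdeal.spanSingleton (nonZeroDivisors (𝓞 K)) ((y : K)⁻¹) *
        FractionalIdeal.spanSingleton (nonZeroDivisors (𝓞 K)) x := by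
      rw [FractionalIdeal.spanSingleton_mul_spanSingleton, div_eq_mul_inv, mul_comm]
    rw [h6, mul_assoc, hx3, FractionalIdeal.coeIdeal_mul, FractionalIdeal.coeIdeal_span_singleton,
      ← mul_assoc, FractionalIdeal.spanSingleton_mul_spanSingleton]
    have h7 : (y : K)⁻¹ * (algebraMap (𝓞 K) K y) = 1 := inv_mul_cancel₀ hy0
    rw [h7, FractionalIdeal.spanSingleton_one, one_mul]

/-! ### products of small primes -/

theorem SmallProd.mono {B B' n n' : ℝ} {A : Ideal (𝓞 K)} (h : SmallProd K B n A) (hB : B ≤ B')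
    (hn : n ≤ n') : SmallProd K B' n' A := by
  obtain ⟨L, h1, h2, h3⟩ := h
  exact ⟨L, fun P hP => ⟨(h1 P hP).1, (h1 P hP).2.1, (h1 P hP).2.2.trans hB⟩, h2.trans hn, h3⟩

theorem SmallProd.mul {B n m : ℝ} {A A' : Ideal (𝓞 K)} (h : SmallProd K B n A)
    (h' : SmallProd K B m A') : SmallProd K B (n + m) (A * A') := by
  obtain ⟨L, h1, h2, h3⟩ := h
  obtain ⟨L', h1', h2', h3'⟩ := h'
  refine ⟨L + L', ?_, ?_, ?_⟩
  · intro P hP
    rcases Multiset.mem_add.1 hP with h | h
    · exact h1 P h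
    · exact h1' P h
  · rw [Multiset.card_add]
    push_cast
    linarith
  · rw [Multiset.prod_add, h3, h3']

theorem SmallProd.one {B n : ℝ} (hn : 0 ≤ n) : SmallProd K B n 1 :=
  ⟨0, fun P hP => absurd hP (Multiset.notMem_zero P), by simpa using hn, Multiset.prod_zero⟩

theorem SmallProd.prime {B : ℝ} {P : Ideal (𝓞 K)} (hP : P.IsPrime) (hP0 : P ≠ ⊥)
    (hB : ((Ideal.absNorm P : ℕ) : ℝ) ≤ B) : SmallProd K B 1 P :=
  ⟨{P}, fun Q hQ => by
    rw [Multiset.mem_singleton] at hQ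
    subst hQ
    exact ⟨hP, hP0, hB⟩, by simp, Multiset.prod_singleton P⟩

theorem SmallProd.ne {B n : ℝ} {A : Ideal (𝓞 K)} (h : SmallProd K B n A) : A ≠ ⊥ := by
  obtain ⟨L, h1, h2, h3⟩ := h
  rw [← h3]
  intro h0
  have h4 : (0 : Ideal (𝓞 K)) ∈ L := Multiset.prod_eq_zero_iff.1 h0
  exact (h1 _ h4).2.1 rfl

/-- factorisation of an ideal whose norm is a product of distinct primes -/
theorem smallProd_of_norm (s : Finset ℕ) (hs : ∀ p ∈ s, p.Prime) (B : ℝ)
    (hB : ∀ p ∈ s, (p : ℝ) ≤ B)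
    (I : Ideal (𝓞 K)) (hI : Ideal.absNorm I = prodS s) : SmallProd K B s.card I := by
  have hI0 : I ≠ 0 := by
    rintro rfl
    have h1 := NFh.prodS_pos hs
    rw [← hI, Ideal.zero_eq_bot, Ideal.absNorm_bot] at h1
    exact lt_irrefl _ h1
  set M := UniqueFactorizationMonoid.normalizedFactors I with hM
  have hprod : M.prod = I :=
    associated_iff_eq.1 (UniqueFactorizationMonoid.prod_normalizedFactors hI0)
  have hprime : ∀ P ∈ M, Prime P := fun P hP =>
    UniqueFactorizationMonoid.prime_of_normalized_factor P hP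
  have hdvd : ∀ P ∈ M, P ∣ I := fun P hP =>
    UniqueFactorizationMonoid.dvd_of_mem_normalizedFactors hP
  have hnorm : ∀ P ∈ M, Ideal.absNorm P ∈ s := fun P hP =>
    NFh.norm_mem hs hI (hprime P hP) (hdvd P hP)
  have hcard : M.card = s.card := by
    have h1 : (M.map (fun P => Ideal.absNorm P)).prod = prodS s := by
      rw [← hI, ← hprod, map_multiset_prod]
    have h2 := congrArg ArithmeticFunction.cardFactors h1
    have hne : (M.map (fun P => Ideal.absNorm P)).prod ≠ 0 := by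
      rw [h1]
      exact (NFh.prodS_pos hs).ne'
    rw [ArithmeticFunction.cardFactors_multiset_prod hne, Multiset.map_map] at h2
    have h3 : (M.map (ArithmeticFunction.cardFactors ∘ fun P => Ideal.absNorm P)) =
        M.map (fun _ => 1) := by
      refine Multiset.map_congr rfl fun P hP => ?_
      exact ArithmeticFunction.cardFactors_apply_prime (hs _ (hnorm P hP))
    rw [h3, Multiset.map_const', Multiset.sum_replicate, smul_eq_mul, mul_one] at h2
    rw [h2]
    have h4 : prodS s = (s.val).prod := by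
      unfold prodS
      rw [Finset.prod_val]
      rfl
    have hne2 : (s.val).prod ≠ 0 := by
      rw [← h4]
      exact (NFh.prodS_pos hs).ne'
    rw [h4, ArithmeticFunction.cardFactors_multiset_prod hne2]
    have h5 : (s.val.map fun p => ArithmeticFunction.cardFactors p) = s.val.map (fun _ => 1) := by
      refine Multiset.map_congr rfl fun p hp => ?_
      exact ArithmeticFunction.cardFactors_apply_prime (hs _ hp)
    rw [h5, Multiset.map_const', Multiset.sum_replicate, smul_eq_mul, mul_one]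
    rfl
  refine ⟨M, fun P hP => ⟨Ideal.isPrime_of_prime (hprime P hP), (hprime P hP).ne_zero,
    hB _ (hnorm P hP)⟩, ?_, hprod⟩
  rw [hcard]

end Pool.Agent.H951R5.AR
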